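import Pool.Agent.Run7.h670.MY.Stm

/-! # Piece DIR of project MY (helper670): a good direction (helper299) -/

set_option autoImplicit false

open MeasureTheory Set Metric
open scoped ENNReal RealInnerProductSpace

namespace Pool.Agent.Run7.h299.MY

open Pool.Agent.Run7.h670.MY

/-- polar coordinates in space -/
theorem lpolar (g : E → ℝ≥0∞) (hg : Measurable g) :
    ∫⁻ v, g v = ∫⁻ σ : sphere (0 : E) 1, (∫⁻ r in Ioi (0 : ℝ),
      ENNReal.ofReal (r ^ 2) * g (r • (σ : E))) ∂(volume : Measure E).toSphere := by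
  have hdim : Module.finrank ℝ E - 1 = 2 := by simp [E]
  have hgm : Measurable fun p : sphere (0 : E) 1 × Ioi (0 : ℝ) => g ((p.2 : ℝ) • (p.1 : E)) := by
    apply hg.comp
    fun_prop
  calc ∫⁻ v, g v = ∫⁻ x : ({(0 : E)}ᶜ : Set E), g x ∂((volume : Measure E).comap (↑)) := by
        rw [lintegral_subtype_comap (measurableSet_singleton _).compl g, restrict_compl_singleton]
    _ = ∫⁻ p, g ((p.2 : ℝ) • (p.1 : E)) ∂((volume : Measure E).toSphere.prod
          (.volumeIoiPow (Module.finrank ℝ E - 1))) := by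
        have h := (volume : Measure E).measurePreserving_homeomorphUnitSphereProd.lintegral_comp hgm
        rw [← h]
        refine lintegral_congr fun x => ?_
        congr 1
        have h1 := homeomorphUnitSphereProd_symm_apply_coe E (homeomorphUnitSphereProd E x)
        rw [Homeomorph.symm_apply_apply] at h1
        exact h1
    _ = ∫⁻ σ : sphere (0 : E) 1, (∫⁻ r : Ioi (0 : ℝ), g ((r : ℝ) • (σ : E))
          ∂(Measure.volumeIoiPow 2)) ∂(volume : Measure E).toSphere := by
        rw [hdim, lintegral_prod _ hgm.aemeasurable]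
    _ = _ := by
        refine lintegral_congr fun σ => ?_
        have hm : Measurable fun r : Ioi (0 : ℝ) => g ((r : ℝ) • (σ : E)) := by
          apply hg.comp
          fun_prop
        rw [Measure.volumeIoiPow, lintegral_withDensity_eq_lintegral_mul _ (by fun_prop) hm]
        rw [← lintegral_subtype_comap measurableSet_Ioi
          (fun r : ℝ => ENNReal.ofReal (r ^ 2) * g (r • (σ : E)))]
        rfl

/-- the correlation function -/
noncomputable def cc (f : E → ℝ≥0∞) (v : E) : ℝ≥0∞ := ∫⁻ x, f x * f (x + v)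

theorem cc_meas {f : E → ℝ≥0∞} (hf : Measurable f) : Measurable (cc f) := by
  unfold cc
  have h : Measurable (Function.uncurry fun v x : E => f x * f (x + v)) := by
    apply Measurable.mul
    · exact hf.comp measurable_snd
    · exact hf.comp (measurable_snd.add measurable_fst)
  exact h.lintegral_prod_right

theorem cc_neg (f : E → ℝ≥0∞) (v : E) : cc f (-v) = cc f v := by
  unfold cc
  rw [← lintegral_add_right_eq_self (fun x => f x * f (x + -v)) v]
  refine lintegral_congr fun x => ?_
  rw [add_neg_cancel_right, mul_comm]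

theorem even_lint (C : ℝ → ℝ≥0∞) (h : ∀ t, C (-t) = C t) :
    ∫⁻ t, C t = 2 * ∫⁻ t in Ioi (0 : ℝ), C t := by
  have h1 : ∫⁻ t in (Ioi (0 : ℝ))ᶜ, C t = ∫⁻ t in Ioi (0 : ℝ), C t := by
    rw [compl_Ioi, ← lintegral_indicator measurableSet_Iic,
      ← lintegral_neg_eq_self (fun t : ℝ => (Iic (0 : ℝ)).indicator (fun t => C t) t)]
    have e : (fun t : ℝ => (Iic (0 : ℝ)).indicator (fun t => C t) (-t)) =
        (Ici (0 : ℝ)).indicator (fun t => C t) := by
      funext t
      by_cases ht : 0 ≤ t
      · rw [indicator_of_mem (show -t ∈ Iic (0 : ℝ) by simpa using ht),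
          indicator_of_mem (show t ∈ Ici (0 : ℝ) from ht), h]
      · rw [indicator_of_notMem (show -t ∉ Iic (0 : ℝ) by simpa using ht),
          indicator_of_notMem (show t ∉ Ici (0 : ℝ) from ht)]
    rw [e, lintegral_indicator measurableSet_Ici]
    exact setLIntegral_congr Ioi_ae_eq_Ici.symm
  rw [← lintegral_add_compl C (measurableSet_Ioi (a := (0 : ℝ))), h1, two_mul]

theorem lineEn_eq {f : E → ℝ≥0∞} (hf : Measurable f) (e : E) :
    lineEn f e = 2 * ∫⁻ t in Ioi (0 : ℝ), cc f (t • e) := by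
  have hm : Measurable (Function.uncurry fun (x : E) (t : ℝ) => f x * f (x + t • e)) := by
    apply Measurable.mul
    · exact hf.comp measurable_fst
    · apply hf.comp
      fun_prop
  have h1 : lineEn f e = ∫⁻ x, ∫⁻ t : ℝ, f x * f (x + t • e) := by
    unfold lineEn
    refine lintegral_congr fun x => ?_
    rw [lintegral_const_mul]
    apply hf.comp
    fun_prop
  rw [h1, lintegral_lintegral_swap hm.aemeasurable]
  rw [← even_lint (fun t => cc f (t • e)) (fun t => by rw [neg_smul, cc_neg])]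
  rfl

theorem riesz_eq {f : E → ℝ≥0∞} (hf : Measurable f) :
    riesz f = ∫⁻ σ : sphere (0 : E) 1, (∫⁻ t in Ioi (0 : ℝ), cc f (t • (σ : E)))
      ∂(volume : Measure E).toSphere := by
  have hk : Measurable fun v : E => ENNReal.ofReal (‖v‖ ^ 2)⁻¹ := by fun_prop
  have h1 : riesz f = ∫⁻ x, ∫⁻ v, f x * f (x + v) * ENNReal.ofReal (‖v‖ ^ 2)⁻¹ := by
    unfold riesz
    refine lintegral_congr fun x => ?_
    rw [← lintegral_add_left_eq_self (fun y => f x * f y * ENNReal.ofReal (‖x - y‖ ^ 2)⁻¹) x]
    refine lintegral_congr fun v => ?_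
    have : x - (x + v) = -v := by abel
    rw [this, norm_neg]
  have hm : Measurable (Function.uncurry fun (x v : E) =>
      f x * f (x + v) * ENNReal.ofReal (‖v‖ ^ 2)⁻¹) := by
    apply Measurable.mul
    · apply Measurable.mul
      · exact hf.comp measurable_fst
      · exact hf.comp (measurable_fst.add measurable_snd)
    · exact hk.comp measurable_snd
  rw [h1, lintegral_lintegral_swap hm.aemeasurable]
  have h2 : ∀ v : E, ∫⁻ x, f x * f (x + v) * ENNReal.ofReal (‖v‖ ^ 2)⁻¹
      = cc f v * ENNReal.ofReal (‖v‖ ^ 2)⁻¹ := by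
    intro v
    rw [lintegral_mul_const]
    · rfl
    · exact hf.mul (hf.comp (measurable_id.add_const v))
  simp only [h2]
  rw [lpolar (fun v => cc f v * ENNReal.ofReal (‖v‖ ^ 2)⁻¹) ((cc_meas hf).mul hk)]
  refine lintegral_congr fun σ => ?_
  refine setLIntegral_congr_fun measurableSet_Ioi fun r hr => ?_
  have hr0 : (0 : ℝ) < r := hr
  have hσ : ‖(σ : E)‖ = 1 := by
    have := σ.2
    simpa using this
  show ENNReal.ofReal (r ^ 2) * (cc f (r • (σ : E)) * ENNReal.ofReal (‖r • (σ : E)‖ ^ 2)⁻¹) = _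
  rw [norm_smul, hσ, mul_one, Real.norm_eq_abs, abs_of_pos hr0, mul_left_comm,
    ← ENNReal.ofReal_mul (by positivity), mul_inv_cancel₀ (by positivity), ENNReal.ofReal_one,
    mul_one]

theorem t_DIR : S_DIR := by
  intro f hf
  set g : sphere (0 : E) 1 → ℝ≥0∞ := fun σ => ∫⁻ t in Ioi (0 : ℝ), cc f (t • (σ : E)) with hg
  have hgm : Measurable g := by
    have h : Measurable (Function.uncurry fun (σ : sphere (0 : E) 1) (t : ℝ) =>
        cc f (t • (σ : E))) := by
      apply (cc_meas hf).comp
      fun_prop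
    exact h.lintegral_prod_right
  have hne : (volume : Measure E).toSphere ≠ 0 := Measure.toSphere_ne_zero _
  obtain ⟨σ, hσ⟩ := exists_le_laverage hne hgm.aemeasurable
  have hσ1 : ‖(σ : E)‖ = 1 := by
    have := σ.2
    simpa using this
  refine ⟨σ, hσ1, ?_⟩
  rw [lineEn_eq hf, riesz_eq hf]
  rw [laverage_eq, Measure.toSphere_apply_univ] at hσ
  have hmass : ((Module.finrank ℝ E : ℕ) : ℝ≥0∞) * volume (ball (0 : E) 1)
      = ENNReal.ofReal (4 * Real.pi) := by
    have h3 : Module.finrank ℝ E = 3 := by simp [E]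
    rw [h3, EuclideanSpace.volume_ball_fin_three]
    rw [ENNReal.ofReal_one, one_pow, one_mul]
    have : ((3 : ℕ) : ℝ≥0∞) = ENNReal.ofReal 3 := by norm_num
    rw [this, ← ENNReal.ofReal_mul (by norm_num)]
    congr 1
    ring
  rw [hmass, div_eq_mul_inv] at hσ
  calc 2 * ∫⁻ t in Ioi (0 : ℝ), cc f (t • (σ : E)) = 2 * g σ := rfl
    _ ≤ 2 * ((∫⁻ σ, g σ ∂(volume : Measure E).toSphere) * (ENNReal.ofReal (4 * Real.pi))⁻¹) :=
        mul_le_mul_right hσ 2
    _ = (2 * (ENNReal.ofReal (4 * Real.pi))⁻¹) * ∫⁻ σ, g σ ∂(volume : Measure E).toSphere := by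
        ring
    _ = ENNReal.ofReal (2 * Real.pi)⁻¹ * ∫⁻ σ, g σ ∂(volume : Measure E).toSphere := by
        congr 1
        have hpi := Real.pi_pos
        rw [← ENNReal.ofReal_inv_of_pos (by positivity)]
        have : (2 : ℝ≥0∞) = ENNReal.ofReal 2 := by norm_num
        rw [this, ← ENNReal.ofReal_mul (by norm_num)]
        congr 1
        field_simp
        norm_num

end Pool.Agent.Run7.h299.MY
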